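import Mathlib

/-! List operations with computable (not nec. primitive recursive) arguments. -/

set_option autoImplicit false

namespace Pool.Agent.Helper923.FF

variable {α β σ : Type} [Primcodable α] [Primcodable β] [Primcodable σ]

theorem comp_foldl {f : α → List β} {g : α → σ} {h : α → σ × β → σ} (hf : Computable f)
    (hg : Computable g) (hh : Computable₂ h) :
    Computable (fun a => (f a).foldl (fun s b => h a (s, b)) (g a)) := by
  let st : α → ℕ × (σ × List β) → σ × List β := fun a x =>
    Option.casesOn (motive := fun _ => σ × List β) x.2.2.head? x.2
      (fun b => (h a (x.2.1, b), x.2.2.tail))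
  have hst : Computable₂ st := by
    have h1 : Computable (fun y : α × (ℕ × (σ × List β)) => y.2.2.2.head?) :=
      Primrec.list_head?.to_comp.comp (Computable.snd.comp (Computable.snd.comp Computable.snd))
    have h2 : Computable (fun y : α × (ℕ × (σ × List β)) => y.2.2) :=
      Computable.snd.comp Computable.snd
    refine Computable.option_casesOn h1 h2 ?_
    refine Computable.pair ?_ ?_
    · refine hh.comp (Computable.fst.comp Computable.fst) (Computable.pair ?_ Computable.snd)
      exact Computable.fst.comp (Computable.snd.comp (Computable.snd.comp Computable.fst))
    · exact Primrec.list_tail.to_comp.comp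
        (Computable.snd.comp (Computable.snd.comp (Computable.snd.comp Computable.fst)))
  have key : Computable (fun a => (Nat.rec (motive := fun _ => σ × List β) (g a, f a)
      (fun y IH => st a (y, IH)) (f a).length : σ × List β)) :=
    Computable.nat_rec (Primrec.list_length.to_comp.comp hf) (Computable.pair hg hf) hst
  refine (Computable.fst.comp key).of_eq ?_
  intro a
  have hgen : ∀ (n : ℕ) (l : List β) (s : σ), n ≤ l.length →
      (Nat.rec (motive := fun _ => σ × List β) (s, l) (fun y IH => st a (y, IH)) n : σ × List β) =
      ((l.take n).foldl (fun s b => h a (s, b)) s, l.drop n) := by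
    intro n l s
    induction n with
    | zero => intro _; simp
    | succ n ih =>
      intro hn
      have ih' := ih (by omega)
      show st a (n, Nat.rec (motive := fun _ => σ × List β) (s, l)
        (fun y IH => st a (y, IH)) n) = _
      rw [ih']
      have hlt : n < l.length := by omega
      simp only [st]
      rw [List.head?_drop]
      rw [List.getElem?_eq_getElem hlt]
      simp only []
      rw [List.tail_drop, ← List.take_concat_get' l n hlt, List.foldl_append]
      rfl
  show (Nat.rec (motive := fun _ => σ × List β) (g a, f a)
      (fun y IH => st a (y, IH)) (f a).length : σ × List β).1 = _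
  rw [hgen _ _ _ le_rfl]
  simp

theorem comp_foldr {f : α → List β} {g : α → σ} {h : α → β × σ → σ} (hf : Computable f)
    (hg : Computable g) (hh : Computable₂ h) :
    Computable (fun a => (f a).foldr (fun b s => h a (b, s)) (g a)) := by
  have h1 := comp_foldl (f := fun a => (f a).reverse) (g := g) (h := fun a x => h a (x.2, x.1))
    (Primrec.list_reverse.to_comp.comp hf) hg
    (hh.comp Computable.fst (Computable.pair (Computable.snd.comp Computable.snd)
      (Computable.fst.comp Computable.snd)))
  refine h1.of_eq ?_
  intro a
  simp [List.foldl_reverse]

theorem comp_map {f : α → List β} {h : α → β → σ} (hf : Computable f) (hh : Computable₂ h) :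
    Computable (fun a => (f a).map (h a)) := by
  have h1 := comp_foldr (f := f) (g := fun _ : α => ([] : List σ))
    (h := fun a x => h a x.1 :: x.2) hf (Computable.const [])
    (Computable.list_cons.comp (hh.comp Computable.fst (Computable.fst.comp Computable.snd))
      (Computable.snd.comp Computable.snd))
  refine h1.of_eq ?_
  intro a
  induction f a with
  | nil => rfl
  | cons b l ih => simp only [List.foldr_cons, List.map_cons, ih]

theorem comp_flatMap {f : α → List β} {h : α → β → List σ} (hf : Computable f)
    (hh : Computable₂ h) : Computable (fun a => (f a).flatMap (h a)) := by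
  have h1 := comp_foldr (f := f) (g := fun _ : α => ([] : List σ))
    (h := fun a x => h a x.1 ++ x.2) hf (Computable.const [])
    (Computable.list_append.comp (hh.comp Computable.fst (Computable.fst.comp Computable.snd))
      (Computable.snd.comp Computable.snd))
  refine h1.of_eq ?_
  intro a
  induction f a with
  | nil => rfl
  | cons b l ih => simp only [List.foldr_cons, List.flatMap_cons, ih]

theorem comp_all {f : α → List β} {h : α → β → Bool} (hf : Computable f)
    (hh : Computable₂ h) : Computable (fun a => (f a).all (h a)) := by
  have h1 := comp_foldr (f := f) (g := fun _ : α => true)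
    (h := fun a x => h a x.1 && x.2) hf (Computable.const true)
    (Primrec.and.to_comp.comp (hh.comp Computable.fst (Computable.fst.comp Computable.snd))
      (Computable.snd.comp Computable.snd))
  refine h1.of_eq ?_
  intro a
  induction f a with
  | nil => rfl
  | cons b l ih => simp only [List.foldr_cons, List.all_cons, ih]

theorem comp_any {f : α → List β} {h : α → β → Bool} (hf : Computable f)
    (hh : Computable₂ h) : Computable (fun a => (f a).any (h a)) := by
  have h1 := comp_foldr (f := f) (g := fun _ : α => false)
    (h := fun a x => h a x.1 || x.2) hf (Computable.const false)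
    (Primrec.or.to_comp.comp (hh.comp Computable.fst (Computable.fst.comp Computable.snd))
      (Computable.snd.comp Computable.snd))
  refine h1.of_eq ?_
  intro a
  induction f a with
  | nil => rfl
  | cons b l ih => simp only [List.foldr_cons, List.any_cons, ih]

theorem comp_filter {f : α → List β} {h : α → β → Bool} (hf : Computable f)
    (hh : Computable₂ h) : Computable (fun a => (f a).filter (h a)) := by
  have h1 := comp_foldr (f := f) (g := fun _ : α => ([] : List β))
    (h := fun a x => bif h a x.1 then x.1 :: x.2 else x.2) hf (Computable.const [])
    (Computable.cond (hh.comp Computable.fst (Computable.fst.comp Computable.snd))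
      (Computable.list_cons.comp (Computable.fst.comp Computable.snd)
        (Computable.snd.comp Computable.snd))
      (Computable.snd.comp Computable.snd))
  refine h1.of_eq ?_
  intro a
  induction f a with
  | nil => rfl
  | cons b l ih =>
    simp only [List.foldr_cons, ih]
    cases hb : h a b <;> simp [hb]

end Pool.Agent.Helper923.FF
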