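import Mathlib

/-! Independent square roots. -/

set_option autoImplicit false

namespace Pool.Agent.Helper923.FF

open Finset

section

variable {F L J : Type} [Field F] [Field L] [Algebra F L]

/-- the square free monomial -/
noncomputable def mon {R J : Type} [CommRing R] (s : J → R) (T : Finset J) : R := ∏ j ∈ T, s j

/-- `b j` is separated from the other `b i` by an extension field -/
def Sep (b : J → F) : Prop :=
  ∀ j, ∃ (Ω : Type) (_ : Field Ω) (_ : Algebra F Ω), (¬ IsSquare (algebraMap F Ω (b j))) ∧
    ∀ i, i ≠ j → IsSquare (algebraMap F Ω (b i))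

theorem splits_of_sq {E : Type} [Field E] [Algebra F E] {b : F} {x : L}
    (hx : x ^ 2 = algebraMap F L b) (hsq : IsSquare (algebraMap F E b)) :
    IsIntegral F x ∧ ((minpoly F x).map (algebraMap F E)).Splits := by
  have h1 : (Polynomial.X ^ 2 - Polynomial.C b : Polynomial F).Monic :=
    Polynomial.monic_X_pow_sub_C b (by norm_num)
  have h0 : Polynomial.aeval x (Polynomial.X ^ 2 - Polynomial.C b : Polynomial F) = 0 := by
    simp [hx]
  refine ⟨⟨_, h1, by simpa [Polynomial.aeval_def] using h0⟩, ?_⟩
  have hd : minpoly F x ∣ (Polynomial.X ^ 2 - Polynomial.C b : Polynomial F) := minpoly.dvd _ _ h0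
  have hd' := Polynomial.map_dvd (algebraMap F E) hd
  refine Polynomial.Splits.of_dvd ?_ ?_ hd'
  · obtain ⟨y, hy⟩ := hsq
    have : (Polynomial.X ^ 2 - Polynomial.C b : Polynomial F).map (algebraMap F E)
        = (Polynomial.X - Polynomial.C y) * (Polynomial.X - Polynomial.C (-y)) := by
      simp only [Polynomial.map_sub, Polynomial.map_pow, Polynomial.map_X, Polynomial.map_C, hy,
        map_mul, map_neg]
      ring
    rw [this]
    exact (Polynomial.Splits.X_sub_C y).mul (Polynomial.Splits.X_sub_C _)
  · exact (h1.map _).ne_zero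

theorem not_mem_adjoin (s : J → L) (b : J → F) (hs : ∀ j, s j ^ 2 = algebraMap F L (b j))
    (hsep : Sep b) (j : J) (T : Set J) (hj : j ∉ T) :
    s j ∉ IntermediateField.adjoin F (s '' T) := by
  intro hmem
  obtain ⟨Ω, _, _, h1, h2⟩ := hsep j
  have hK : ∀ x ∈ s '' T, IsIntegral F x ∧ ((minpoly F x).map (algebraMap F Ω)).Splits := by
    rintro x ⟨i, hi, rfl⟩
    exact splits_of_sq (hs i) (h2 i (fun h => hj (h ▸ hi)))
  obtain ⟨φ⟩ := IntermediateField.nonempty_algHom_adjoin_of_splits hK
  apply h1
  refine ⟨φ ⟨s j, hmem⟩, ?_⟩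
  rw [← map_mul]
  have : (⟨s j, hmem⟩ * ⟨s j, hmem⟩ : IntermediateField.adjoin F (s '' T)) =
      algebraMap F _ (b j) := by
    apply Subtype.ext
    show s j * s j = algebraMap F L (b j)
    rw [← hs j, sq]
  rw [this, AlgHom.commutes]

theorem mon_mem [DecidableEq J] (s : J → L) (T X : Finset J) (hX : X ⊆ T) :
    mon s X ∈ IntermediateField.adjoin F (s '' (T : Set J)) := by
  unfold mon
  refine prod_mem ?_
  intro j hj
  exact IntermediateField.subset_adjoin F _ ⟨j, Finset.mem_coe.2 (hX hj), rfl⟩

theorem mon_indep_finset [DecidableEq J] (s : J → L) (b : J → F)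
    (hs : ∀ j, s j ^ 2 = algebraMap F L (b j)) (hsep : Sep b) (T : Finset J) :
    ∀ c : Finset J → F, ∑ X ∈ T.powerset, c X • mon s X = 0 → ∀ X ∈ T.powerset, c X = 0 := by
  induction T using Finset.induction_on with
  | empty =>
    intro c h X hX
    simp only [Finset.powerset_empty, Finset.mem_singleton] at hX
    simp only [Finset.powerset_empty, Finset.sum_singleton, mon, Finset.prod_empty] at h
    subst hX
    simpa [Algebra.smul_def] using h
  | insert j T hj ih =>
    intro c h
    rw [Finset.sum_powerset_insert hj] at h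
    set A := ∑ X ∈ T.powerset, c X • mon s X with hA
    set B := ∑ X ∈ T.powerset, c (insert j X) • mon s X with hB
    have hB' : ∑ X ∈ T.powerset, c (insert j X) • mon s (insert j X) = s j * B := by
      rw [hB, Finset.mul_sum]
      refine Finset.sum_congr rfl ?_
      intro X hX
      have hjX : j ∉ X := fun h => hj (Finset.mem_powerset.1 hX h)
      rw [mon, Finset.prod_insert hjX, mul_smul_comm]
      rfl
    rw [hB'] at h
    have hmemA : A ∈ IntermediateField.adjoin F (s '' (T : Set J)) := by
      refine sum_mem ?_
      intro X hX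
      exact (IntermediateField.adjoin F (s '' (T : Set J))).smul_mem
        (mon_mem s T X (Finset.mem_powerset.1 hX))
    have hmemB : B ∈ IntermediateField.adjoin F (s '' (T : Set J)) := by
      refine sum_mem ?_
      intro X hX
      exact (IntermediateField.adjoin F (s '' (T : Set J))).smul_mem
        (mon_mem s T X (Finset.mem_powerset.1 hX))
    have hB0 : B = 0 := by
      by_contra hB0
      apply not_mem_adjoin s b hs hsep j (T : Set J) (by simpa using hj)
      have : s j = -A / B := by
        field_simp
        linear_combination h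
      rw [this]
      exact div_mem (neg_mem hmemA) hmemB
    have hA0 : A = 0 := by
      rw [hB0] at h
      simpa using h
    have ih1 := ih c hA0
    have ih2 := ih (fun X => c (insert j X)) hB0
    intro X hX
    rw [Finset.mem_powerset] at hX
    by_cases hjX : j ∈ X
    · have h1 := ih2 (X.erase j) (by
        rw [Finset.mem_powerset]
        intro y hy
        rw [Finset.mem_erase] at hy
        exact Finset.mem_of_mem_insert_of_ne (hX hy.2) hy.1)
      simpa [Finset.insert_erase hjX] using h1
    · exact ih1 X (by
        rw [Finset.mem_powerset]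
        intro y hy
        exact Finset.mem_of_mem_insert_of_ne (hX hy) (fun h => hjX (h ▸ hy)))

theorem mon_indep [DecidableEq J] (s : J → L) (b : J → F)
    (hs : ∀ j, s j ^ 2 = algebraMap F L (b j)) (hsep : Sep b) :
    LinearIndependent F (mon s) := by
  rw [linearIndependent_iff']
  intro S g h X hX
  have h1 := mon_indep_finset s b hs hsep (S.sup id) (fun X => if X ∈ S then g X else 0) ?_ X ?_
  · simpa [hX] using h1
  · rw [← h]
    have hsub : S ⊆ (S.sup id).powerset := by
      intro Y hY
      rw [Finset.mem_powerset]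
      exact Finset.le_sup (f := id) hY
    rw [← Finset.sum_subset hsub]
    · refine Finset.sum_congr rfl ?_
      intro Y hY
      simp [hY]
    · intro Y _ hY
      simp [hY]
  · rw [Finset.mem_powerset]
    exact Finset.le_sup (f := id) hX

/-- normal form, simultaneously for two families -/
theorem nf_two [DecidableEq J] {E : Type} [Field E] [Algebra F E] (s : J → L) (S : J → E)
    (b : J → F) (hs : ∀ j, s j ^ 2 = algebraMap F L (b j))
    (hS : ∀ j, S j ^ 2 = algebraMap F E (b j)) (P : MvPolynomial J F) :
    ∃ c : Finset J →₀ F, MvPolynomial.aeval s P = c.sum (fun X a => a • mon s X) ∧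
      MvPolynomial.aeval S P = c.sum (fun X a => a • mon S X) := by
  induction P using MvPolynomial.induction_on with
  | C a =>
    refine ⟨Finsupp.single ∅ a, ?_, ?_⟩
    · rw [Finsupp.sum_single_index (by simp)]
      simp [mon, Algebra.smul_def]
    · rw [Finsupp.sum_single_index (by simp)]
      simp [mon, Algebra.smul_def]
  | add P Q hP hQ =>
    obtain ⟨c, h1, h2⟩ := hP
    obtain ⟨d, h3, h4⟩ := hQ
    refine ⟨c + d, ?_, ?_⟩
    · rw [map_add, h1, h3, Finsupp.sum_add_index' (by simp) (by intros; rw [add_smul])]
    · rw [map_add, h2, h4, Finsupp.sum_add_index' (by simp) (by intros; rw [add_smul])]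
  | mul_X P j hP =>
    obtain ⟨c, h1, h2⟩ := hP
    let up : Finset J → F → (Finset J →₀ F) := fun X a =>
      if j ∈ X then Finsupp.single (X.erase j) (a * b j) else Finsupp.single (insert j X) a
    have key : ∀ (R : Type) [Field R] [Algebra F R] (t : J → R)
        (ht : ∀ j, t j ^ 2 = algebraMap F R (b j)) (X : Finset J) (a : F),
        (up X a).sum (fun X a => a • mon t X) = a • mon t X * t j := by
      intro R _ _ t ht X a
      by_cases hj : j ∈ X
      · simp only [up, hj, if_true]
        rw [Finsupp.sum_single_index (by simp)]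
        have : mon t X = t j * mon t (X.erase j) := by
          rw [mon, mon, Finset.mul_prod_erase X t hj]
        rw [this, Algebra.smul_def, Algebra.smul_def, map_mul, ← ht j]
        ring
      · simp only [up, hj, if_false]
        rw [Finsupp.sum_single_index (by simp)]
        have : mon t (insert j X) = t j * mon t X := by
          rw [mon, mon, Finset.prod_insert hj]
        rw [this, Algebra.smul_def, Algebra.smul_def]
        ring
    refine ⟨c.sum up, ?_, ?_⟩
    · rw [map_mul, MvPolynomial.aeval_X, h1, Finsupp.sum_sum_index (by simp)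
        (by intros; rw [add_smul]), Finsupp.sum_mul]
      refine Finsupp.sum_congr ?_
      intro X _
      exact (key L s hs X (c X)).symm
    · rw [map_mul, MvPolynomial.aeval_X, h2, Finsupp.sum_sum_index (by simp)
        (by intros; rw [add_smul]), Finsupp.sum_mul]
      refine Finsupp.sum_congr ?_
      intro X _
      exact (key E S hS X (c X)).symm

/-- the universal property -/
theorem exists_hom [DecidableEq J] {E : Type} [Field E] [Algebra F E] (s : J → L) (S : J → E)
    (b : J → F) (hs : ∀ j, s j ^ 2 = algebraMap F L (b j))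
    (hS : ∀ j, S j ^ 2 = algebraMap F E (b j)) (hsep : Sep b) :
    ∃ φ : IntermediateField.adjoin F (Set.range s) →ₐ[F] E,
      ∀ (j : J) (h : s j ∈ IntermediateField.adjoin F (Set.range s)), φ ⟨s j, h⟩ = S j := by
  have hle : RingHom.ker (MvPolynomial.aeval (R := F) s) ≤
      RingHom.ker (MvPolynomial.aeval (R := F) S) := by
    intro P hP
    rw [RingHom.mem_ker] at hP ⊢
    obtain ⟨c, h1, h2⟩ := nf_two s S b hs hS P
    rw [h1] at hP
    have hc : c = 0 := by
      have := linearIndependent_iff.1 (mon_indep s b hs hsep) c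
      exact this (by rw [Finsupp.linearCombination_apply]; exact hP)
    rw [h2, hc]
    simp
  have hint : ∀ x ∈ Set.range s, IsAlgebraic F x := by
    rintro x ⟨j, rfl⟩
    refine (IsIntegral.isAlgebraic ?_)
    refine ⟨Polynomial.X ^ 2 - Polynomial.C (b j), Polynomial.monic_X_pow_sub_C _ (by norm_num), ?_⟩
    simp [hs j]
  have hrange : (IntermediateField.adjoin F (Set.range s)).toSubalgebra =
      (MvPolynomial.aeval (R := F) s).range := by
    rw [IntermediateField.adjoin_toSubalgebra_of_isAlgebraic hint,
      Algebra.adjoin_range_eq_range_aeval]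
  let e1 : (MvPolynomial J F ⧸ RingHom.ker (MvPolynomial.aeval (R := F) s)) ≃ₐ[F]
      (MvPolynomial.aeval (R := F) s).range := Ideal.quotientKerEquivRange _
  let e2 : IntermediateField.adjoin F (Set.range s) ≃ₐ[F] (MvPolynomial.aeval (R := F) s).range :=
    Subalgebra.equivOfEq _ _ hrange
  let q : (MvPolynomial J F ⧸ RingHom.ker (MvPolynomial.aeval (R := F) s)) →ₐ[F] E :=
    Ideal.Quotient.liftₐ _ (MvPolynomial.aeval (R := F) S) (fun a ha => by
      have := hle ha
      rwa [RingHom.mem_ker] at this)
  refine ⟨(q.comp e1.symm.toAlgHom).comp e2.toAlgHom, ?_⟩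
  intro j h
  have h3 : e1 (Ideal.Quotient.mk _ (MvPolynomial.X j)) = e2 ⟨s j, h⟩ := by
    apply Subtype.ext
    show MvPolynomial.aeval (R := F) s (MvPolynomial.X j) = s j
    simp
  show q (e1.symm (e2 ⟨s j, h⟩)) = S j
  rw [← h3, AlgEquiv.symm_apply_apply]
  show MvPolynomial.aeval (R := F) S (MvPolynomial.X j) = S j
  simp

end

end Pool.Agent.Helper923.FF
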