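import Mathlib

/-! Witt vectors: unramified places. -/

set_option autoImplicit false

namespace Pool.Agent.Helper923.FF

open WittVector

/-- algebraic closure of the prime field -/
abbrev KK (q : ℕ) [Fact q.Prime] : Type := AlgebraicClosure (ZMod q)

/-- Witt vectors -/
abbrev WW (q : ℕ) [Fact q.Prime] : Type := WittVector q (KK q)

instance charKK (q : ℕ) [Fact q.Prime] : CharP (KK q) q :=
  charP_of_injective_algebraMap (algebraMap (ZMod q) (KK q)).injective q

/-- residue map -/
noncomputable def res (q : ℕ) [Fact q.Prime] : WW q →+* KK q := constantCoeff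

theorem res_eq_zero {q : ℕ} [Fact q.Prime] (w : WW q) :
    res q w = 0 ↔ w ∈ Ideal.span {(q : WW q)} := by
  rw [mem_span_p_iff_coeff_zero_eq_zero]
  rfl

theorem two_ne {q : ℕ} [Fact q.Prime] (hq : q ≠ 2) : (2 : KK q) ≠ 0 := by
  intro h
  have h2 : ((2 : ℕ) : KK q) = 0 := by exact_mod_cast h
  rw [CharP.cast_eq_zero_iff (KK q) q 2] at h2
  exact hq ((Nat.prime_dvd_prime_iff_eq (Fact.out) Nat.prime_two).1 h2)

theorem isUnit_of_res {q : ℕ} [Fact q.Prime] (w : WW q) (h : res q w ≠ 0) : IsUnit w :=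
  isUnit_of_coeff_zero_ne_zero w h

theorem witt_sqrt {q : ℕ} [Fact q.Prime] (hq : q ≠ 2) (w : WW q) (σ : KK q)
    (hσ : σ ^ 2 = res q w) (hne : res q w ≠ 0) : ∃ ρ : WW q, ρ ^ 2 = w ∧ res q ρ = σ := by
  obtain ⟨a0, ha0⟩ := constantCoeff_surjective (p := q) (R := KK q) σ
  have ha0' : res q a0 = σ := ha0
  have hH : HenselianRing (WW q) (Ideal.span {(q : WW q)}) := inferInstance
  have h1 : (Polynomial.X ^ 2 - Polynomial.C w : Polynomial (WW q)).Monic :=
    Polynomial.monic_X_pow_sub_C w (by norm_num)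
  have h2 : (Polynomial.X ^ 2 - Polynomial.C w : Polynomial (WW q)).eval a0 ∈
      Ideal.span {(q : WW q)} := by
    rw [← res_eq_zero]
    simp [ha0', hσ]
  have hσ0 : σ ≠ 0 := by
    intro h
    apply hne
    rw [← hσ, h]
    ring
  have h3 : IsUnit (Ideal.Quotient.mk (Ideal.span {(q : WW q)})
      ((Polynomial.X ^ 2 - Polynomial.C w : Polynomial (WW q)).derivative.eval a0)) := by
    apply IsUnit.map
    apply isUnit_of_res
    simp only [Polynomial.derivative_sub, Polynomial.derivative_X_pow, Polynomial.derivative_C,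
      sub_zero, Polynomial.eval_mul, Polynomial.eval_pow, Polynomial.eval_X, Polynomial.eval_C,
      map_mul, map_pow, ha0', map_natCast]
    have h2 := two_ne (q := q) hq
    have h4 : res q 2 = 2 := map_ofNat (res q) 2
    simp [hσ0, h2, h4]
  obtain ⟨a, ha, hb⟩ := hH.is_henselian _ h1 a0 h2 h3
  refine ⟨a, ?_, ?_⟩
  · have : (Polynomial.X ^ 2 - Polynomial.C w : Polynomial (WW q)).eval a = 0 := ha
    simpa [sub_eq_zero] using this
  · rw [← res_eq_zero, map_sub, ha0', sub_eq_zero] at hb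
    exact hb

theorem isSquare_of_res {q : ℕ} [Fact q.Prime] (hq : q ≠ 2) (w : WW q) (hne : res q w ≠ 0) :
    IsSquare w := by
  obtain ⟨σ, hσ⟩ := IsAlgClosed.exists_pow_nat_eq (res q w) (n := 2) (by norm_num)
  obtain ⟨ρ, h1, _⟩ := witt_sqrt hq w σ hσ hne
  exact ⟨ρ, by rw [← h1, sq]⟩

/-- the field -/
abbrev OO (q : ℕ) [Fact q.Prime] : Type := FractionRing (WW q)

theorem not_isSquare_OO {q : ℕ} [Fact q.Prime] (w u : WW q) (hw : w = q * u)
    (hu : res q u ≠ 0) : ¬ IsSquare (algebraMap (WW q) (OO q) w) := by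
  rintro ⟨z, hz⟩
  have hint : IsIntegral (WW q) (z ^ 2) := by
    rw [sq, ← hz]
    exact isIntegral_algebraMap
  obtain ⟨y, hy⟩ := IsIntegrallyClosed.exists_algebraMap_eq_of_isIntegral_pow
    (by norm_num : 0 < 2) hint
  have h1 : w = y * y := by
    apply IsFractionRing.injective (WW q) (OO q)
    rw [map_mul, hy, hz]
  have hrq : res q (q : WW q) = 0 := by
    rw [map_natCast]
    exact CharP.cast_eq_zero _ _
  have h2 : res q y = 0 := by
    have h3 : res q y * res q y = 0 := by
      rw [← map_mul, ← h1, hw, map_mul, hrq, zero_mul]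
    exact mul_self_eq_zero.1 h3
  rw [res_eq_zero, Ideal.mem_span_singleton] at h2
  obtain ⟨v, hv⟩ := h2
  have hq0 : (q : WW q) ≠ 0 := by
    have := (WittVector.irreducible q : Irreducible ((q : ℕ) : WW q)).ne_zero
    exact this
  have h4 : u = q * (v * v) := by
    apply mul_left_cancel₀ hq0
    rw [← hw, h1, hv]
    ring
  apply hu
  rw [h4, map_mul, hrq, zero_mul]

theorem isSquare_OO {q : ℕ} [Fact q.Prime] (hq : q ≠ 2) (w : WW q) (hne : res q w ≠ 0) :
    IsSquare (algebraMap (WW q) (OO q) w) := (isSquare_of_res hq w hne).map _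

end Pool.Agent.Helper923.FF
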